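import Mathlib

/-!
# Rolewicz operators along the graph of the Takagi function
-/

set_option autoImplicit false

open scoped ZeroAtInfty Topology
open Filter

namespace Pool.Agent.Lib.MP_c0f49b

/-- The Takagi function `T(t) = ∑ 2^{-n} dist(2^n t, ℤ)`. -/
noncomputable def takagi (t : ℝ) : ℝ :=
  ∑' n : ℕ, (1 / 2 : ℝ) ^ n * Metric.infDist ((2 : ℝ) ^ n * t) (Set.range ((↑) : ℤ → ℝ))

/-- The unweighted backward shift on `c₀(ℕ)`. -/
noncomputable def backwardShift (𝕜 : Type*) [RCLike 𝕜] : C₀(ℕ, 𝕜) →L[𝕜] C₀(ℕ, 𝕜) :=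
  LinearMap.mkContinuous
    { toFun := fun f =>
        { toFun := fun n => f (n + 1)
          continuous_toFun := continuous_of_discreteTopology
          zero_at_infty' := by
            have h := f.zero_at_infty'
            rw [cocompact_eq_atTop] at h ⊢
            exact h.comp (tendsto_add_atTop_nat 1) }
      map_add' := fun f g => by ext n; rfl
      map_smul' := fun c f => by ext n; rfl } 1 (by
    intro f
    rw [one_mul, ← ZeroAtInftyContinuousMap.norm_toBCF_eq_norm,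
      ← ZeroAtInftyContinuousMap.norm_toBCF_eq_norm]
    rw [BoundedContinuousFunction.norm_le (norm_nonneg _)]
    intro n
    exact f.toBCF.norm_coe_le_norm (n + 1))

/-- The set `HC(T)` of hypercyclic vectors of `T`: the orbit `{T^n v : n ≥ 0}` is dense. -/
def HC {𝕜 X : Type*} [RCLike 𝕜] [NormedAddCommGroup X] [NormedSpace 𝕜 X] (T : X →L[𝕜] X) :
    Set X :=
  {v | Dense (Set.range fun n : ℕ => (T ^ n) v)}

/-- The operator `e^x B × e^y B` on `c₀(ℕ) × c₀(ℕ)`. -/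
noncomputable def rolewiczProd (𝕜 : Type*) [RCLike 𝕜] (x y : ℝ) :
    (C₀(ℕ, 𝕜) × C₀(ℕ, 𝕜)) →L[𝕜] (C₀(ℕ, 𝕜) × C₀(ℕ, 𝕜)) :=
  (((Real.exp x : ℝ) : 𝕜) • backwardShift 𝕜).prodMap
    (((Real.exp y : ℝ) : 𝕜) • backwardShift 𝕜)

/-- The translate `Γ_{a,b}` of the graph of the Takagi function over `[0,1]`. -/
def takagiGraph (a b : ℝ) : Set (ℝ × ℝ) :=
  {z | ∃ t ∈ Set.Icc (0 : ℝ) 1, z = (a + t, b + takagi t)}

end Pool.Agent.Lib.MP_c0f49b
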