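import Pool.Agent.Lib.MP_c0f49b.Defs

/-!
# Common hypercyclic vectors along the graph of the Takagi function

For all `a, b > 0` the family `e^x B × e^y B`, `(x, y)` in the translate by `(a, b)` of the graph
of the Takagi function over `[0, 1]`, has a common hypercyclic vector on `c₀(ℕ) × c₀(ℕ)`.

Idea: the Takagi function has modulus of continuity `h log (1 / h)`.  Visiting times `N (k + 1)`
allow parameter steps `δ k` of size about `1 / (k log k)`, whose sum diverges, so a single sweep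
along the curve reaches every parameter.  Baire's theorem then gives a common hypercyclic vector.
-/

set_option autoImplicit false

open scoped ZeroAtInfty Topology
open Filter

namespace Pool.Agent.Lib.MP_c0f49b

@[simp] lemma backwardShift_apply (𝕜 : Type*) [RCLike 𝕜] (f : C₀(ℕ, 𝕜)) (n : ℕ) :
    backwardShift 𝕜 f n = f (n + 1) := rfl

/-- distance to the integers -/
noncomputable def dZ (x : ℝ) : ℝ := Metric.infDist x (Set.range ((↑) : ℤ → ℝ))

lemma dZ_nonneg (x : ℝ) : 0 ≤ dZ x := Metric.infDist_nonneg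

lemma dZ_le_half (x : ℝ) : dZ x ≤ 1 / 2 := by
  refine (Metric.infDist_le_dist_of_mem (Set.mem_range_self (round x))).trans ?_
  rw [Real.dist_eq]
  exact abs_sub_round x

lemma dZ_lip (x y : ℝ) : |dZ x - dZ y| ≤ |x - y| := by
  have := (Metric.lipschitz_infDist_pt (Set.range ((↑) : ℤ → ℝ))).dist_le_mul x y
  simpa [Real.dist_eq, dZ] using this

lemma takagi_def (t : ℝ) : takagi t = ∑' n : ℕ, (1 / 2 : ℝ) ^ n * dZ ((2 : ℝ) ^ n * t) := rfl

lemma summable_takagi (t : ℝ) : Summable fun n : ℕ => (1 / 2 : ℝ) ^ n * dZ ((2 : ℝ) ^ n * t) := by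
  refine Summable.of_nonneg_of_le (fun n => mul_nonneg (by positivity) (dZ_nonneg _)) (fun n => ?_)
    summable_geometric_two
  have h1 := dZ_le_half ((2 : ℝ) ^ n * t)
  have h2 := dZ_nonneg ((2 : ℝ) ^ n * t)
  have h3 : (0 : ℝ) ≤ (1 / 2) ^ n := by positivity
  nlinarith

lemma takagi_nonneg (t : ℝ) : 0 ≤ takagi t :=
  tsum_nonneg fun n => mul_nonneg (by positivity) (dZ_nonneg _)

lemma takagi_modulus (m : ℕ) (s t : ℝ) :
    |takagi s - takagi t| ≤ m * |s - t| + (1 / 2 : ℝ) ^ m := by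
  have hs := summable_takagi s
  have ht := summable_takagi t
  rw [takagi_def, takagi_def, ← hs.tsum_sub ht]
  have hst := hs.sub ht
  set f : ℕ → ℝ := fun n => (1 / 2 : ℝ) ^ n * dZ ((2 : ℝ) ^ n * s) -
    (1 / 2 : ℝ) ^ n * dZ ((2 : ℝ) ^ n * t) with hf
  have hfe : ∀ n, f n = (1 / 2 : ℝ) ^ n * (dZ ((2 : ℝ) ^ n * s) - dZ ((2 : ℝ) ^ n * t)) := by
    intro n; simp only [hf]; ring
  have h1 : ∀ n, |f n| ≤ |s - t| := by
    intro n
    rw [hfe, abs_mul, abs_of_nonneg (by positivity : (0 : ℝ) ≤ (1 / 2) ^ n)]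
    have := dZ_lip ((2 : ℝ) ^ n * s) ((2 : ℝ) ^ n * t)
    rw [← mul_sub, abs_mul, abs_of_nonneg (by positivity : (0 : ℝ) ≤ 2 ^ n)] at this
    calc (1 / 2 : ℝ) ^ n * |dZ ((2 : ℝ) ^ n * s) - dZ ((2 : ℝ) ^ n * t)|
        ≤ (1 / 2 : ℝ) ^ n * (2 ^ n * |s - t|) := by gcongr
      _ = |s - t| := by
        rw [← mul_assoc, ← mul_pow]; norm_num
  have h2 : ∀ n, |f n| ≤ (1 / 2 : ℝ) ^ n * (1 / 2) := by
    intro n
    rw [hfe, abs_mul, abs_of_nonneg (by positivity : (0 : ℝ) ≤ (1 / 2) ^ n)]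
    gcongr
    rw [abs_le]
    have a1 := dZ_le_half ((2 : ℝ) ^ n * s)
    have a2 := dZ_nonneg ((2 : ℝ) ^ n * s)
    have a3 := dZ_le_half ((2 : ℝ) ^ n * t)
    have a4 := dZ_nonneg ((2 : ℝ) ^ n * t)
    constructor <;> linarith
  have hsabs : Summable fun n => |f n| :=
    Summable.of_nonneg_of_le (fun n => abs_nonneg _) h2 (summable_geometric_two.mul_right _)
  have h3 : |∑' n, f n| ≤ ∑' n, |f n| := by
    have := norm_tsum_le_tsum_norm (f := f) (by simpa [Real.norm_eq_abs] using hsabs)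
    simpa [Real.norm_eq_abs] using this
  refine h3.trans ?_
  rw [← hsabs.sum_add_tsum_nat_add m]
  have h4 : ∑ i ∈ Finset.range m, |f i| ≤ m * |s - t| := by
    calc ∑ i ∈ Finset.range m, |f i| ≤ ∑ i ∈ Finset.range m, |s - t| :=
          Finset.sum_le_sum fun i _ => h1 i
      _ = m * |s - t| := by simp
  have h5 : ∑' i, |f (i + m)| ≤ (1 / 2 : ℝ) ^ m := by
    have hsum : Summable fun i : ℕ => (1 / 2 : ℝ) ^ i * ((1 / 2) ^ m * (1 / 2)) :=
      summable_geometric_two.mul_right _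
    calc ∑' i, |f (i + m)| ≤ ∑' i : ℕ, (1 / 2 : ℝ) ^ i * ((1 / 2) ^ m * (1 / 2)) := by
          refine Summable.tsum_le_tsum (fun i => ?_) ((summable_nat_add_iff m).2 hsabs) hsum
          refine (h2 _).trans (le_of_eq ?_)
          rw [pow_add]; ring
      _ = (1 / 2 : ℝ) ^ m := by
          rw [tsum_mul_right, tsum_geometric_two]; ring
  linarith

lemma not_summable_aux (m₀ : ℕ) (hm : 1 ≤ m₀) :
    ¬ Summable fun n : ℕ => 1 / ((n : ℝ) * (m₀ + Nat.log 2 n : ℕ)) := by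
  rw [← summable_condensed_iff_of_nonneg (fun n => by positivity)]
  · intro h
    have h2 : (fun k : ℕ => (2 : ℝ) ^ k * (1 / (((2 ^ k : ℕ) : ℝ) * (m₀ + Nat.log 2 (2 ^ k) : ℕ))))
        = fun k : ℕ => 1 / (((k + m₀ : ℕ)) : ℝ) := by
      funext k
      rw [Nat.log_pow (by norm_num)]
      push_cast
      have : (0 : ℝ) < 2 ^ k := by positivity
      have h3 : (0 : ℝ) < m₀ + k := by
        have : (1 : ℝ) ≤ m₀ := by exact_mod_cast hm
        positivity
      field_simp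
      ring
    rw [h2] at h
    exact Real.not_summable_one_div_natCast ((summable_nat_add_iff m₀).1 h)
  · intro m n hm0 hmn
    have hl : Nat.log 2 m ≤ Nat.log 2 n := Nat.log_mono_right hmn
    have h1 : (0 : ℝ) < m := by exact_mod_cast hm0
    have h2 : (0 : ℝ) < ((m₀ + Nat.log 2 m : ℕ) : ℝ) := by
      have : 0 < m₀ + Nat.log 2 m := by omega
      exact_mod_cast this
    apply one_div_le_one_div_of_le (by positivity)
    have h3 : (m : ℝ) ≤ n := by exact_mod_cast hmn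
    have h4 : ((m₀ + Nat.log 2 m : ℕ) : ℝ) ≤ ((m₀ + Nat.log 2 n : ℕ) : ℝ) := by
      exact_mod_cast Nat.add_le_add_left hl m₀
    exact mul_le_mul h3 h4 h2.le (by positivity)

/-- Step sizes adapted to the modulus of continuity of the Takagi function. -/
lemma exists_steps (η : ℝ) (hη : 0 < η) :
    ∃ δ : ℕ → ℝ, (∀ k, 0 < δ k) ∧
      Tendsto (fun n => ∑ k ∈ Finset.range n, δ k) atTop atTop ∧
      ∀ k : ℕ, ∀ s t : ℝ, |s - t| ≤ δ k →
        ((k : ℝ) + 1) * |s - t| ≤ η ∧ ((k : ℝ) + 1) * |takagi s - takagi t| ≤ η := by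
  obtain ⟨m₁, hm₁⟩ := exists_pow_lt_of_lt_one (show (0 : ℝ) < η / 4 by positivity)
    (show (1 / 2 : ℝ) < 1 by norm_num)
  set m₀ := m₁ + 1 with hm₀
  have hm₀' : (1 / 2 : ℝ) ^ m₀ ≤ η / 4 := by
    rw [hm₀, pow_succ]
    nlinarith [show (0 : ℝ) ≤ (1 / 2) ^ m₁ by positivity]
  set M : ℕ → ℕ := fun k => m₀ + Nat.log 2 (k + 1) with hM
  have hMpos : ∀ k, (1 : ℝ) ≤ (M k : ℝ) := by
    intro k
    have : 1 ≤ M k := by simp only [hM]; omega
    exact_mod_cast this
  refine ⟨fun k => η / 2 * (1 / (((k + 1 : ℕ) : ℝ) * (M k : ℕ))), fun k => ?_, ?_, ?_⟩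
  · have := hMpos k
    positivity
  · have h1 := not_summable_aux m₀ (by omega)
    have h2 : ¬ Summable fun k : ℕ => η / 2 * (1 / (((k + 1 : ℕ) : ℝ) * (M k : ℕ))) := by
      intro h
      have h3 := h.mul_left (2 / η)
      apply h1
      rw [← summable_nat_add_iff 1]
      refine h3.congr fun k => ?_
      simp only [hM]
      field_simp
    refine (not_summable_iff_tendsto_nat_atTop_of_nonneg fun k => ?_).1 h2
    have := hMpos k
    positivity
  · intro k s t hst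
    have hk : (0 : ℝ) < (k : ℝ) + 1 := by positivity
    have hMk := hMpos k
    have hMk0 : (0 : ℝ) < (M k : ℝ) := by linarith
    have e1 : ((k : ℝ) + 1) * (η / 2 * (1 / (((k + 1 : ℕ) : ℝ) * (M k : ℕ)))) =
        η / 2 / (M k : ℝ) := by
      push_cast
      field_simp
    have h1 : ((k : ℝ) + 1) * |s - t| ≤ η / 2 / (M k : ℝ) := by
      rw [← e1]; gcongr
    have h2 : η / 2 / (M k : ℝ) ≤ η / 2 := div_le_self (by positivity) hMk
    refine ⟨by linarith, ?_⟩
    have h3 := takagi_modulus (M k) s t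
    have h4 : ((k : ℝ) + 1) * (1 / 2 : ℝ) ^ (M k) ≤ η / 2 := by
      have h5 : k + 1 < 2 ^ (Nat.log 2 (k + 1) + 1) := Nat.lt_pow_succ_log_self (by norm_num) _
      have h6 : (k : ℝ) + 1 ≤ 2 ^ (Nat.log 2 (k + 1) + 1) := by exact_mod_cast h5.le
      calc ((k : ℝ) + 1) * (1 / 2 : ℝ) ^ (M k)
          ≤ 2 ^ (Nat.log 2 (k + 1) + 1) * (1 / 2 : ℝ) ^ (M k) := by gcongr
        _ = 2 * (1 / 2 : ℝ) ^ m₀ := by
          simp only [hM]
          rw [pow_add (1 / 2 : ℝ), pow_succ]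
          have : (2 : ℝ) ^ (Nat.log 2 (k + 1)) * (1 / 2) ^ (Nat.log 2 (k + 1)) = 1 := by
            rw [← mul_pow]; norm_num
          calc (2 : ℝ) ^ (Nat.log 2 (k + 1)) * 2 * ((1 / 2) ^ m₀ * (1 / 2) ^ (Nat.log 2 (k + 1)))
              = ((2 : ℝ) ^ (Nat.log 2 (k + 1)) * (1 / 2) ^ (Nat.log 2 (k + 1))) *
                (2 * (1 / 2) ^ m₀) := by ring
            _ = 2 * (1 / 2 : ℝ) ^ m₀ := by rw [this, one_mul]
        _ ≤ η / 2 := by linarith
    calc ((k : ℝ) + 1) * |takagi s - takagi t|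
        ≤ ((k : ℝ) + 1) * (M k * |s - t| + (1 / 2 : ℝ) ^ (M k)) := by gcongr
      _ = M k * (((k : ℝ) + 1) * |s - t|) + ((k : ℝ) + 1) * (1 / 2 : ℝ) ^ (M k) := by ring
      _ ≤ M k * (η / 2 / (M k : ℝ)) + η / 2 := by gcongr
      _ = η := by field_simp; ring

variable {𝕜 : Type*} [RCLike 𝕜]


lemma c0_norm_le {f : C₀(ℕ, 𝕜)} {C : ℝ} (hC : 0 ≤ C) : ‖f‖ ≤ C ↔ ∀ n, ‖f n‖ ≤ C := by
  rw [← ZeroAtInftyContinuousMap.norm_toBCF_eq_norm, BoundedContinuousFunction.norm_le hC]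
  rfl

lemma c0_coord_le (f : C₀(ℕ, 𝕜)) (n : ℕ) : ‖f n‖ ≤ ‖f‖ :=
  (c0_norm_le (norm_nonneg _)).1 le_rfl n

lemma c0_tendsto (f : C₀(ℕ, 𝕜)) : Tendsto f atTop (𝓝 0) := by
  have h := f.zero_at_infty'
  rw [cocompact_eq_atTop] at h
  exact h

/-- Build an element of `c₀` from a null sequence. -/
def mkC0 (f : ℕ → 𝕜) (hf : Tendsto f atTop (𝓝 0)) : C₀(ℕ, 𝕜) where
  toFun := f
  continuous_toFun := continuous_of_discreteTopology
  zero_at_infty' := by rw [cocompact_eq_atTop]; exact hf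

@[simp] lemma mkC0_apply (f : ℕ → 𝕜) (hf : Tendsto f atTop (𝓝 0)) (n : ℕ) :
    mkC0 f hf n = f n := rfl

lemma pow_apply (c : 𝕜) (n : ℕ) (f : C₀(ℕ, 𝕜)) (i : ℕ) :
    ((c • backwardShift 𝕜) ^ n) f i = c ^ n * f (i + n) := by
  induction n generalizing i with
  | zero => simp
  | succ n ih =>
    rw [pow_succ']
    change (c • backwardShift 𝕜) (((c • backwardShift 𝕜) ^ n) f) i = _
    change c • (backwardShift 𝕜 (((c • backwardShift 𝕜) ^ n) f) i) = _
    rw [backwardShift_apply, ih, smul_eq_mul, pow_succ', add_right_comm, add_assoc i n 1]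
    ring


/-- Lower bound for the gaps `N (k+j+1) x_{k+j} - N (k+1) x_k`. -/
lemma gap_bound (N : ℕ) (c ε : ℝ) (x : ℕ → ℝ) (hx : ∀ k, c ≤ x k)
    (hstep : ∀ k : ℕ, (N : ℝ) * ((k : ℝ) + 1) * |x (k + 1) - x k| ≤ ε) (k j : ℕ) :
    (j : ℝ) * (N * c - ε) ≤
      N * ((k : ℝ) + j + 1) * x (k + j) - N * ((k : ℝ) + 1) * x k := by
  induction j with
  | zero => simp
  | succ j ih =>
    have h1 := hstep (k + j)
    have h2 := hx (k + j + 1)
    have h3 : -ε ≤ (N : ℝ) * ((k : ℝ) + j + 1) * (x (k + j + 1) - x (k + j)) := by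
      have h4 : -((N : ℝ) * ((k : ℝ) + j + 1) * |x (k + j + 1) - x (k + j)|) ≤
          (N : ℝ) * ((k : ℝ) + j + 1) * (x (k + j + 1) - x (k + j)) := by
        rw [← mul_neg]
        apply mul_le_mul_of_nonneg_left (neg_abs_le _) (by positivity)
      push_cast at h1
      linarith
    have h5 : (N : ℝ) * c ≤ N * x (k + j + 1) := mul_le_mul_of_nonneg_left h2 (by positivity)
    rw [← add_assoc]
    push_cast
    nlinarith

lemma exists_block (N : ℕ) (hN : 0 < N) (u₀ p : C₀(ℕ, 𝕜)) (hu : ∀ i, N ≤ i → u₀ i = 0)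
    (hp : ∀ i, N ≤ i → p i = 0) (c ε : ℝ) (hc : 0 < c) (hε0 : 0 ≤ ε) (hε : ε ≤ 1)
    (hεc : ε ≤ N * c) (x : ℕ → ℝ) (hx : ∀ k, c ≤ x k)
    (hstep : ∀ k : ℕ, (N : ℝ) * ((k : ℝ) + 1) * |x (k + 1) - x k| ≤ ε) :
    ∃ u : C₀(ℕ, 𝕜), ‖u - u₀‖ ≤ Real.exp (-(N * c)) * ‖p‖ ∧
      ∀ (k : ℕ) (s : ℝ), (N : ℝ) * ((k : ℝ) + 1) * |s - x k| ≤ ε →
        ‖((((Real.exp s : ℝ) : 𝕜) • backwardShift 𝕜) ^ (N * (k + 1))) u - p‖ ≤
          (2 * ε + Real.exp (-(N * c - 2 * ε))) * ‖p‖ := by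
  have hNr : (0 : ℝ) < N := by exact_mod_cast hN
  -- the sequence
  set U : ℕ → 𝕜 := fun i => if i < N then u₀ i else
    ((Real.exp (-(N * (i / N : ℕ) * x (i / N - 1))) : ℝ) : 𝕜) * p (i % N) with hU
  have hUlarge : ∀ i, N ≤ i → ‖U i‖ ≤ Real.exp (-(N * c * (i / N : ℕ))) * ‖p‖ := by
    intro i hi
    simp only [hU, not_lt.2 hi, if_false, norm_mul, RCLike.norm_ofReal, Real.abs_exp]
    apply mul_le_mul _ (c0_coord_le p _) (norm_nonneg _) (Real.exp_pos _).le
    apply Real.exp_le_exp.2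
    have h1 := hx (i / N - 1)
    have h2 : (0 : ℝ) ≤ N * (i / N : ℕ) := by positivity
    nlinarith [mul_le_mul_of_nonneg_left h1 h2]
  have hUt : Tendsto U atTop (𝓝 0) := by
    rw [tendsto_zero_iff_norm_tendsto_zero]
    have h1 : Tendsto (fun i : ℕ => Real.exp (N * c) * Real.exp (-(c * i)) * ‖p‖) atTop (𝓝 0) := by
      have h2 : Tendsto (fun i : ℕ => Real.exp (-(c * i))) atTop (𝓝 0) := by
        apply Real.tendsto_exp_neg_atTop_nhds_zero.comp
        exact Tendsto.const_mul_atTop hc tendsto_natCast_atTop_atTop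
      simpa using (h2.const_mul (Real.exp (N * c))).mul_const ‖p‖
    refine squeeze_zero' (Eventually.of_forall fun _ => norm_nonneg _) ?_ h1
    filter_upwards [eventually_ge_atTop N] with i hi
    refine (hUlarge i hi).trans ?_
    apply mul_le_mul_of_nonneg_right _ (norm_nonneg _)
    rw [← Real.exp_add]
    apply Real.exp_le_exp.2
    have h3 : i < N * (i / N + 1) := Nat.lt_mul_div_succ i hN
    have h4 : (i : ℝ) ≤ N * ((i / N : ℕ) + 1) := by exact_mod_cast h3.le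
    nlinarith [mul_le_mul_of_nonneg_left h4 hc.le]
  refine ⟨mkC0 U hUt, ?_, ?_⟩
  · rw [c0_norm_le (by positivity)]
    intro i
    rw [ZeroAtInftyContinuousMap.sub_apply, mkC0_apply]
    by_cases hi : i < N
    · simp only [hU, hi, if_true, sub_self, norm_zero]
      positivity
    · push Not at hi
      rw [hu i hi, sub_zero]
      refine (hUlarge i hi).trans ?_
      apply mul_le_mul_of_nonneg_right _ (norm_nonneg _)
      apply Real.exp_le_exp.2
      have h1 : 1 ≤ i / N := (Nat.one_le_div_iff hN).2 hi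
      have h2 : (1 : ℝ) ≤ (i / N : ℕ) := by exact_mod_cast h1
      nlinarith [mul_pos hNr hc]
  · intro k s hs
    rw [c0_norm_le (by positivity)]
    intro i
    rw [ZeroAtInftyContinuousMap.sub_apply, pow_apply, mkC0_apply]
    -- division facts
    have hdiv : (i + N * (k + 1)) / N = i / N + (k + 1) := Nat.add_mul_div_left i (k + 1) hN
    have hmod : (i + N * (k + 1)) % N = i % N := Nat.add_mul_mod_self_left i N (k + 1)
    have hlt : ¬ (i + N * (k + 1) < N) := by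
      have : N * 1 ≤ N * (k + 1) := Nat.mul_le_mul_left N (by omega)
      omega
    have hUi : U (i + N * (k + 1)) =
        ((Real.exp (-(N * ((k : ℝ) + (i / N : ℕ) + 1) * x (k + i / N))) : ℝ) : 𝕜) * p (i % N) := by
      simp only [hU, hlt, if_false, hdiv, hmod]
      have e1 : ∀ j : ℕ, j + (k + 1) - 1 = k + j := by intro j; omega
      rw [e1]
      congr 3
      push_cast
      ring_nf
    rw [hUi]
    have hpow : (((Real.exp s : ℝ) : 𝕜)) ^ (N * (k + 1)) =
        ((Real.exp (N * ((k : ℝ) + 1) * s) : ℝ) : 𝕜) := by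
      rw [← RCLike.ofReal_pow, ← Real.exp_nat_mul]
      congr 2
      push_cast
      ring
    rw [hpow, ← mul_assoc, ← RCLike.ofReal_mul, ← Real.exp_add]
    by_cases hi : i < N
    · have e1 : i / N = 0 := Nat.div_eq_of_lt hi
      have e2 : i % N = i := Nat.mod_eq_of_lt hi
      rw [e1, e2]
      have h1 : N * ((k : ℝ) + 1) * s + -(N * ((k : ℝ) + (0 : ℕ) + 1) * x (k + 0)) =
          N * ((k : ℝ) + 1) * (s - x k) := by
        push_cast
        rw [add_zero, add_zero]; ring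
      rw [h1]
      have h2 : |N * ((k : ℝ) + 1) * (s - x k)| ≤ ε := by
        rw [abs_mul, abs_of_nonneg (by positivity : (0 : ℝ) ≤ N * ((k : ℝ) + 1))]
        exact hs
      have h3 := Real.abs_exp_sub_one_le (h2.trans hε)
      have h4 : ((Real.exp (N * ((k : ℝ) + 1) * (s - x k)) : ℝ) : 𝕜) * p i - p i =
          ((Real.exp (N * ((k : ℝ) + 1) * (s - x k)) - 1 : ℝ) : 𝕜) * p i := by
        rw [RCLike.ofReal_sub, RCLike.ofReal_one]; ring
      rw [h4, norm_mul, RCLike.norm_ofReal]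
      apply mul_le_mul _ (c0_coord_le p _) (norm_nonneg _) (by positivity)
      have := Real.exp_pos (-(N * c - 2 * ε))
      linarith
    · push Not at hi
      rw [hp i hi, sub_zero, norm_mul, RCLike.norm_ofReal, Real.abs_exp]
      apply mul_le_mul _ (c0_coord_le p _) (norm_nonneg _) (by positivity)
      have h1 : 1 ≤ i / N := (Nat.one_le_div_iff hN).2 hi
      have h2 : (1 : ℝ) ≤ (i / N : ℕ) := by exact_mod_cast h1
      have h3 := gap_bound N c ε x hx hstep k (i / N)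
      have h4 : N * c - ε ≤ ((i / N : ℕ) : ℝ) * (N * c - ε) := by nlinarith
      have h5 : N * ((k : ℝ) + 1) * s - N * ((k : ℝ) + 1) * x k ≤ ε := by
        have : N * ((k : ℝ) + 1) * (s - x k) ≤ N * ((k : ℝ) + 1) * |s - x k| :=
          mul_le_mul_of_nonneg_left (le_abs_self _) (by positivity)
        nlinarith
      have h6 : Real.exp (N * ((k : ℝ) + 1) * s +
          -(N * ((k : ℝ) + (i / N : ℕ) + 1) * x (k + i / N))) ≤ Real.exp (-(N * c - 2 * ε)) := by
        apply Real.exp_le_exp.2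
        linarith
      linarith

lemma rolewiczProd_pow (x y : ℝ) (n : ℕ) (z : C₀(ℕ, 𝕜) × C₀(ℕ, 𝕜)) :
    ((rolewiczProd 𝕜 x y) ^ n) z =
      (((((Real.exp x : ℝ) : 𝕜) • backwardShift 𝕜) ^ n) z.1,
        ((((Real.exp y : ℝ) : 𝕜) • backwardShift 𝕜) ^ n) z.2) := by
  induction n with
  | zero => simp
  | succ n ih =>
    rw [pow_succ', pow_succ', pow_succ']
    change (rolewiczProd 𝕜 x y) (((rolewiczProd 𝕜 x y) ^ n) z) = _
    rw [ih]
    rfl

/-- Truncation. -/
noncomputable def trunc (N : ℕ) (f : C₀(ℕ, 𝕜)) : C₀(ℕ, 𝕜) :=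
  mkC0 (fun i => if i < N then f i else 0) (by
    refine tendsto_const_nhds.congr' ?_
    filter_upwards [eventually_ge_atTop N] with i hi
    simp [not_lt.2 hi])

lemma trunc_zero_of_ge (N M : ℕ) (h : N ≤ M) (f : C₀(ℕ, 𝕜)) (i : ℕ) (hi : M ≤ i) :
    trunc N f i = 0 := by
  simp [trunc, not_lt.2 (h.trans hi)]

lemma exists_trunc (f : C₀(ℕ, 𝕜)) (ε : ℝ) (hε : 0 < ε) :
    ∃ N₀ : ℕ, ∀ N, N₀ ≤ N → ‖trunc N f - f‖ ≤ ε := by
  have h := c0_tendsto f
  rw [Metric.tendsto_atTop] at h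
  obtain ⟨N₀, hN₀⟩ := h ε hε
  refine ⟨N₀, fun N hN => ?_⟩
  rw [c0_norm_le hε.le]
  intro i
  rw [ZeroAtInftyContinuousMap.sub_apply, trunc, mkC0_apply]
  split_ifs with hi
  · simpa using hε.le
  · have := hN₀ i (by omega)
    rw [dist_zero_right] at this
    rw [zero_sub, norm_neg]
    exact this.le

/-- finite vectors as elements of `c₀` -/
noncomputable def ofFin (N : ℕ) (g : Fin N → 𝕜) : C₀(ℕ, 𝕜) :=
  mkC0 (fun i => if h : i < N then g ⟨i, h⟩ else 0) (by
    refine tendsto_const_nhds.congr' ?_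
    filter_upwards [eventually_ge_atTop N] with i hi
    simp [not_lt.2 hi])

lemma continuous_ofFin (N : ℕ) : Continuous (ofFin (𝕜 := 𝕜) N) := by
  rw [Metric.continuous_iff]
  intro g ε hε
  refine ⟨ε / 2, by positivity, fun g' hg' => ?_⟩
  rw [dist_eq_norm]
  have : ‖ofFin N g' - ofFin N g‖ ≤ ε / 2 := by
    rw [c0_norm_le (by positivity)]
    intro i
    rw [ZeroAtInftyContinuousMap.sub_apply, ofFin, ofFin, mkC0_apply, mkC0_apply]
    by_cases hi : i < N
    · simp only [hi, dif_pos]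
      rw [← dist_eq_norm]
      exact (dist_le_pi_dist g' g ⟨i, hi⟩).trans hg'.le
    · simp only [hi, dif_neg, not_false_eq_true, sub_zero, norm_zero]
      positivity
  linarith

instance : SecondCountableTopology C₀(ℕ, 𝕜) := by
  have h1 : TopologicalSpace.IsSeparable (Set.univ : Set C₀(ℕ, 𝕜)) := by
    have h2 : TopologicalSpace.IsSeparable (⋃ N : ℕ, Set.range (ofFin (𝕜 := 𝕜) N)) :=
      TopologicalSpace.IsSeparable.iUnion fun N =>
        TopologicalSpace.isSeparable_range (continuous_ofFin N)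
    refine h2.closure.mono ?_
    intro f _
    rw [Metric.mem_closure_iff]
    intro ε hε
    obtain ⟨N, hN⟩ := exists_trunc f (ε / 2) (by positivity)
    refine ⟨ofFin N (fun i => f i), Set.mem_iUnion.2 ⟨N, ⟨_, rfl⟩⟩, ?_⟩
    have e : ofFin N (fun i => f i) = trunc N f := by
      ext i
      simp [ofFin, trunc]
    rw [e, dist_comm, dist_eq_norm]
    linarith [hN N le_rfl]
  have : TopologicalSpace.SeparableSpace C₀(ℕ, 𝕜) :=
    TopologicalSpace.isSeparable_univ_iff.1 h1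
  exact UniformSpace.secondCountable_of_separable _

lemma continuous_takagi : Continuous takagi := by
  rw [Metric.continuous_iff]
  intro t ε hε
  obtain ⟨m, hm⟩ := exists_pow_lt_of_lt_one (show (0 : ℝ) < ε / 2 by positivity)
    (show (1 / 2 : ℝ) < 1 by norm_num)
  refine ⟨ε / (2 * (m + 1)), by positivity, fun s hs => ?_⟩
  rw [Real.dist_eq] at hs ⊢
  have h1 := takagi_modulus m s t
  have h2 : (m : ℝ) * |s - t| ≤ ε / 2 := by
    have h3 : (m : ℝ) * |s - t| ≤ (m + 1) * (ε / (2 * (m + 1))) := by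
      apply mul_le_mul (by linarith) hs.le (abs_nonneg _) (by positivity)
    have h4 : ((m : ℝ) + 1) * (ε / (2 * (m + 1))) = ε / 2 := by field_simp
    linarith
  linarith


/-- The set of vectors whose orbits visit `U` for each parameter. -/
def visit (𝕜 : Type*) [RCLike 𝕜] (a b : ℝ) (U : Set (C₀(ℕ, 𝕜) × C₀(ℕ, 𝕜))) :
    Set (C₀(ℕ, 𝕜) × C₀(ℕ, 𝕜)) :=
  {z | ∀ t ∈ Set.Icc (0 : ℝ) 1, ∃ n : ℕ, ((rolewiczProd 𝕜 (a + t) (b + takagi t)) ^ n) z ∈ U}

lemma shift_pow_apply (n : ℕ) (f : C₀(ℕ, 𝕜)) (i : ℕ) :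
    ((backwardShift 𝕜) ^ n) f i = f (i + n) := by
  induction n generalizing i with
  | zero => simp
  | succ n ih =>
    rw [pow_succ']
    change backwardShift 𝕜 (((backwardShift 𝕜) ^ n) f) i = _
    rw [backwardShift_apply, ih]
    congr 1
    omega

lemma smul_pow_apply (c : 𝕜) (n : ℕ) (f : C₀(ℕ, 𝕜)) :
    ((c • backwardShift 𝕜) ^ n) f = c ^ n • ((backwardShift 𝕜) ^ n) f := by
  ext i
  rw [pow_apply, ZeroAtInftyContinuousMap.smul_apply, shift_pow_apply, smul_eq_mul]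

lemma isOpen_visit (a b : ℝ) (U : Set (C₀(ℕ, 𝕜) × C₀(ℕ, 𝕜))) (hU : IsOpen U) :
    IsOpen (visit 𝕜 a b U) := by
  rw [isOpen_iff_eventually]
  intro z hz
  refine (isCompact_Icc (a := (0 : ℝ)) (b := 1)).eventually_forall_of_forall_eventually
    (P := fun z t => ∃ n : ℕ, ((rolewiczProd 𝕜 (a + t) (b + takagi t)) ^ n) z ∈ U) ?_
  intro t ht
  obtain ⟨n, hn⟩ := hz t ht
  have hcont : Continuous fun w : (C₀(ℕ, 𝕜) × C₀(ℕ, 𝕜)) × ℝ =>
      ((rolewiczProd 𝕜 (a + w.2) (b + takagi w.2)) ^ n) w.1 := by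
    simp only [rolewiczProd_pow, smul_pow_apply]
    have h1 : Continuous fun w : (C₀(ℕ, 𝕜) × C₀(ℕ, 𝕜)) × ℝ =>
        (((Real.exp (a + w.2) : ℝ) : 𝕜)) ^ n := by
      refine Continuous.pow ?_ n
      exact RCLike.continuous_ofReal.comp (Real.continuous_exp.comp
        (continuous_const.add continuous_snd))
    have h2 : Continuous fun w : (C₀(ℕ, 𝕜) × C₀(ℕ, 𝕜)) × ℝ =>
        (((Real.exp (b + takagi w.2) : ℝ) : 𝕜)) ^ n := by
      refine Continuous.pow ?_ n
      exact RCLike.continuous_ofReal.comp (Real.continuous_exp.comp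
        (continuous_const.add (continuous_takagi.comp continuous_snd)))
    refine Continuous.prodMk ?_ ?_
    · exact h1.smul (((backwardShift 𝕜) ^ n).continuous.comp (continuous_fst.comp continuous_fst))
    · exact h2.smul (((backwardShift 𝕜) ^ n).continuous.comp (continuous_snd.comp continuous_fst))
  have hopen := hU.preimage hcont
  filter_upwards [hopen.mem_nhds (show (z, t) ∈ _ from hn)] with w hw
  exact ⟨n, hw⟩

lemma dense_visit (a b : ℝ) (ha : 0 < a) (hb : 0 < b) (U : Set (C₀(ℕ, 𝕜) × C₀(ℕ, 𝕜)))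
    (hU : IsOpen U) (hne : U.Nonempty) : Dense (visit 𝕜 a b U) := by
  rw [Metric.dense_iff]
  intro z₀ r hr
  obtain ⟨w, hw⟩ := hne
  obtain ⟨ρ, hρ, hball⟩ := Metric.isOpen_iff.1 hU w hw
  obtain ⟨M₁, hM₁⟩ := exists_trunc w.1 (ρ / 4) (by positivity)
  obtain ⟨M₂, hM₂⟩ := exists_trunc w.2 (ρ / 4) (by positivity)
  obtain ⟨M₃, hM₃⟩ := exists_trunc z₀.1 (r / 4) (by positivity)
  obtain ⟨M₄, hM₄⟩ := exists_trunc z₀.2 (r / 4) (by positivity)
  set M := max (max M₁ M₂) (max M₃ M₄) with hM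
  set p := trunc M w.1
  set q := trunc M w.2
  set u₀ := trunc M z₀.1
  set v₀ := trunc M z₀.2
  set R := max ‖p‖ ‖q‖ with hR
  have hR0 : 0 ≤ R := (norm_nonneg p).trans (le_max_left _ _)
  set c := min a b with hc
  have hc0 : 0 < c := lt_min ha hb
  set ε := min 1 (ρ / (8 * (R + 1))) with hε
  have hε0 : 0 < ε := lt_min one_pos (by positivity)
  have hε1 : ε ≤ 1 := min_le_left _ _
  have hεR : 2 * ε * R ≤ ρ / 4 := by
    have h1 : ε ≤ ρ / (8 * (R + 1)) := min_le_right _ _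
    have h2 : ε * (R + 1) ≤ ρ / (8 * (R + 1)) * (R + 1) := by gcongr
    have h3 : ρ / (8 * (R + 1)) * (R + 1) = ρ / 8 := by field_simp
    nlinarith
  -- choice of N
  have hexp : Tendsto (fun N : ℕ => Real.exp (-(N * c))) atTop (𝓝 0) := by
    apply Real.tendsto_exp_neg_atTop_nhds_zero.comp
    exact Tendsto.atTop_mul_const hc0 tendsto_natCast_atTop_atTop
  have hE1 : ∀ᶠ N : ℕ in atTop, Real.exp (-(N * c)) * R < r / 2 := by
    have : Tendsto (fun N : ℕ => Real.exp (-(N * c)) * R) atTop (𝓝 (0 * R)) := hexp.mul_const R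
    rw [zero_mul] at this
    exact this.eventually (gt_mem_nhds (by positivity))
  have hE2 : ∀ᶠ N : ℕ in atTop, Real.exp 2 * Real.exp (-(N * c)) * R < ρ / 4 := by
    have : Tendsto (fun N : ℕ => Real.exp 2 * Real.exp (-(N * c)) * R) atTop
        (𝓝 (Real.exp 2 * 0 * R)) := (hexp.const_mul _).mul_const R
    rw [mul_zero, zero_mul] at this
    exact this.eventually (gt_mem_nhds (by positivity))
  have hE3 : ∀ᶠ N : ℕ in atTop, (1 : ℝ) ≤ N * c :=
    (Tendsto.atTop_mul_const hc0 tendsto_natCast_atTop_atTop).eventually_ge_atTop 1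
  obtain ⟨N, hN1, hN2, hN3, hN4, hN5⟩ := (hE1.and (hE2.and (hE3.and
    ((eventually_ge_atTop M).and (eventually_gt_atTop 0))))).exists
  have hNr : (0 : ℝ) < N := by exact_mod_cast hN5
  obtain ⟨δ, hδ0, hδsum, hδ⟩ := exists_steps (ε / N) (by positivity)
  set τ : ℕ → ℝ := fun k => ∑ j ∈ Finset.range k, δ j with hτ
  have hτ0 : τ 0 = 0 := by simp [hτ]
  have hτs : ∀ k, τ (k + 1) = τ k + δ k := fun k => by simp [hτ, Finset.sum_range_succ]
  have hτnn : ∀ k, 0 ≤ τ k := fun k => Finset.sum_nonneg fun j _ => (hδ0 j).le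
  have hkey : ∀ (k : ℕ) (s : ℝ), |s - τ k| ≤ δ k →
      (N : ℝ) * ((k : ℝ) + 1) * |a + s - (a + τ k)| ≤ ε ∧
      (N : ℝ) * ((k : ℝ) + 1) * |b + takagi s - (b + takagi (τ k))| ≤ ε := by
    intro k s hs
    obtain ⟨h1, h2⟩ := hδ k s (τ k) hs
    constructor
    · rw [add_sub_add_left_eq_sub, mul_assoc]
      calc (N : ℝ) * (((k : ℝ) + 1) * |s - τ k|) ≤ N * (ε / N) := by gcongr
        _ = ε := by field_simp
    · rw [add_sub_add_left_eq_sub, mul_assoc]
      calc (N : ℝ) * (((k : ℝ) + 1) * |takagi s - takagi (τ k)|) ≤ N * (ε / N) := by gcongr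
        _ = ε := by field_simp
  have hstep : ∀ k : ℕ, |τ (k + 1) - τ k| ≤ δ k := by
    intro k
    rw [hτs, add_sub_cancel_left, abs_of_pos (hδ0 k)]
  obtain ⟨u, hu1, hu2⟩ := exists_block N hN5 u₀ p
    (fun i hi => trunc_zero_of_ge M N hN4 z₀.1 i hi)
    (fun i hi => trunc_zero_of_ge M N hN4 w.1 i hi) c ε hc0 hε0.le hε1 (hε1.trans hN3)
    (fun k => a + τ k) (fun k => by
      have := hτnn k
      have := min_le_left a b
      linarith) (fun k => (hkey k (τ (k + 1)) (hstep k)).1)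
  obtain ⟨v, hv1, hv2⟩ := exists_block N hN5 v₀ q
    (fun i hi => trunc_zero_of_ge M N hN4 z₀.2 i hi)
    (fun i hi => trunc_zero_of_ge M N hN4 w.2 i hi) c ε hc0 hε0.le hε1 (hε1.trans hN3)
    (fun k => b + takagi (τ k)) (fun k => by
      have := takagi_nonneg (τ k)
      have := min_le_right a b
      linarith) (fun k => (hkey k (τ (k + 1)) (hstep k)).2)
  have hpR : ‖p‖ ≤ R := le_max_left _ _
  have hqR : ‖q‖ ≤ R := le_max_right _ _
  have hMM₁ : M₁ ≤ M := (le_max_left _ _).trans (le_max_left _ _)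
  have hMM₂ : M₂ ≤ M := (le_max_right _ _).trans (le_max_left _ _)
  have hMM₃ : M₃ ≤ M := (le_max_left _ _).trans (le_max_right _ _)
  have hMM₄ : M₄ ≤ M := (le_max_right _ _).trans (le_max_right _ _)
  refine ⟨(u, v), ?_, ?_⟩
  · -- close to z₀
    rw [Metric.mem_ball, Prod.dist_eq, max_lt_iff, dist_eq_norm, dist_eq_norm]
    constructor
    · have h1 : ‖u - z₀.1‖ ≤ ‖u - u₀‖ + ‖u₀ - z₀.1‖ := by
        have : u - z₀.1 = (u - u₀) + (u₀ - z₀.1) := by abel
        rw [this]; exact norm_add_le _ _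
      have h2 : ‖u - u₀‖ ≤ Real.exp (-(N * c)) * R :=
        hu1.trans (mul_le_mul_of_nonneg_left hpR (Real.exp_pos _).le)
      have h3 := hM₃ M hMM₃
      simp only
      linarith
    · have h1 : ‖v - z₀.2‖ ≤ ‖v - v₀‖ + ‖v₀ - z₀.2‖ := by
        have : v - z₀.2 = (v - v₀) + (v₀ - z₀.2) := by abel
        rw [this]; exact norm_add_le _ _
      have h2 : ‖v - v₀‖ ≤ Real.exp (-(N * c)) * R :=
        hv1.trans (mul_le_mul_of_nonneg_left hqR (Real.exp_pos _).le)
      have h3 := hM₄ M hMM₄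
      simp only
      linarith
  · -- visits U
    intro t ht
    -- find k
    have hex : ∃ k, t < τ k := by
      have := (hδsum.eventually (eventually_gt_atTop t)).exists
      exact this
    have hfind := Nat.find_spec hex
    have hfmin := fun m hm => Nat.find_min hex (m := m) hm
    set K := Nat.find hex
    have hK0 : K ≠ 0 := by
      intro h0
      rw [h0, hτ0] at hfind
      exact absurd ht.1 (not_le.2 hfind)
    obtain ⟨k, hk⟩ := Nat.exists_eq_succ_of_ne_zero hK0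
    have hk1 : τ k ≤ t := not_lt.1 (hfmin k (by omega))
    have hk2 : t < τ (k + 1) := by rw [hk] at hfind; exact hfind
    have hk3 : |t - τ k| ≤ δ k := by
      rw [abs_of_nonneg (by linarith)]
      have := hτs k
      linarith
    obtain ⟨g1, g2⟩ := hkey k t hk3
    have e1 := hu2 k (a + t) g1
    have e2 := hv2 k (b + takagi t) g2
    refine ⟨N * (k + 1), hball ?_⟩
    rw [rolewiczProd_pow, Metric.mem_ball, Prod.dist_eq, max_lt_iff, dist_eq_norm, dist_eq_norm]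
    have hfac : (2 * ε + Real.exp (-(N * c - 2 * ε))) * R < ρ / 2 := by
      have h1 : Real.exp (-(N * c - 2 * ε)) ≤ Real.exp 2 * Real.exp (-(N * c)) := by
        rw [← Real.exp_add]
        apply Real.exp_le_exp.2
        linarith
      have h2 : Real.exp (-(N * c - 2 * ε)) * R ≤ Real.exp 2 * Real.exp (-(N * c)) * R :=
        mul_le_mul_of_nonneg_right h1 hR0
      rw [add_mul]
      linarith
    have hfacnn : 0 ≤ 2 * ε + Real.exp (-(N * c - 2 * ε)) := by positivity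
    constructor
    · simp only
      set A := ((((Real.exp (a + t) : ℝ) : 𝕜) • backwardShift 𝕜) ^ (N * (k + 1))) u
      have h1 : ‖A - w.1‖ ≤ ‖A - p‖ + ‖p - w.1‖ := by
        have : A - w.1 = (A - p) + (p - w.1) := by abel
        rw [this]; exact norm_add_le _ _
      have h2 : ‖A - p‖ ≤ (2 * ε + Real.exp (-(N * c - 2 * ε))) * R :=
        e1.trans (mul_le_mul_of_nonneg_left hpR hfacnn)
      have h3 := hM₁ M hMM₁
      linarith
    · simp only
      set A := ((((Real.exp (b + takagi t) : ℝ) : 𝕜) • backwardShift 𝕜) ^ (N * (k + 1))) v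
      have h1 : ‖A - w.2‖ ≤ ‖A - q‖ + ‖q - w.2‖ := by
        have : A - w.2 = (A - q) + (q - w.2) := by abel
        rw [this]; exact norm_add_le _ _
      have h2 : ‖A - q‖ ≤ (2 * ε + Real.exp (-(N * c - 2 * ε))) * R :=
        e2.trans (mul_le_mul_of_nonneg_left hqR hfacnn)
      have h3 := hM₂ M hMM₂
      linarith

/-- **Common hypercyclic vectors along the graph of the Takagi function.** For all `a, b > 0`
the family `(e^x B × e^y B)`, `(x, y) ∈ Γ_{a,b}`, on `c₀(ℕ) × c₀(ℕ)` (real or complex scalars)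
has a common hypercyclic vector. -/
theorem main (𝕜 : Type*) [RCLike 𝕜] (a b : ℝ) (ha : 0 < a) (hb : 0 < b) :
    (⋂ z ∈ takagiGraph a b, HC (rolewiczProd 𝕜 z.1 z.2)).Nonempty := by
  set 𝓑 := TopologicalSpace.countableBasis (C₀(ℕ, 𝕜) × C₀(ℕ, 𝕜))
  have hD : Dense (⋂ U ∈ 𝓑, visit 𝕜 a b U) := by
    refine dense_biInter_of_isOpen (fun U hU => isOpen_visit a b U ?_)
      (TopologicalSpace.countable_countableBasis _) (fun U hU => dense_visit a b ha hb U ?_ ?_)
    · exact TopologicalSpace.isOpen_of_mem_countableBasis hU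
    · exact TopologicalSpace.isOpen_of_mem_countableBasis hU
    · exact TopologicalSpace.nonempty_of_mem_countableBasis hU
  obtain ⟨z, hz⟩ := hD.nonempty
  refine ⟨z, ?_⟩
  rw [Set.mem_iInter₂]
  rintro w ⟨t, ht, rfl⟩
  rw [HC, Set.mem_ofPred_eq, (TopologicalSpace.isBasis_countableBasis _).dense_iff]
  intro U hU hne
  have h1 := Set.mem_iInter₂.1 hz U hU t ht
  obtain ⟨n, hn⟩ := h1
  exact ⟨_, hn, ⟨n, rfl⟩⟩

end Pool.Agent.Lib.MP_c0f49b
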